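import Pool.Agent.ANO5.Fib

/-!
# ANO5: the universal cover of `S₁ × ⋯ × S_r × N`

`X r = ℍ^r × W` is the universal cover of `M = S₁ × ⋯ × S_r × N`, where `S_i = Γ_i \ ℍ` are closed
hyperbolic surfaces and `W` is the universal cover of `N` (`Fib`).
-/

set_option autoImplicit false

open scoped UpperHalfPlane MatrixGroups
open Set

namespace Pool.Agent.ANO5.A1

variable [Fib] {r : ℕ}

/-- The universal cover `ℍ^r × W` of `S₁ × ⋯ × S_r × N`. -/
abbrev X (r : ℕ) : Type := (Fin r → ℍ) × Fib.W

/-- The vector space `ℂ^r × V`; `X r` is an open subset of it. -/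
abbrev E (r : ℕ) : Type := (Fin r → ℂ) × Fib.V

/-- The inclusion `ℍ^r × W → ℂ^r × V`. -/
noncomputable def toE (p : X r) : E r := (fun i => (p.1 i : ℂ), Fib.crd p.2)

/-- The image of `ℍ^r × W` in `ℂ^r × V`. -/
def dom (r : ℕ) : Set (E r) := {x | ∀ i, 0 < (x.1 i).im}

/-- The inverse of `toE` (arbitrary outside `dom r`). -/
noncomputable def ofE (x : E r) : X r :=
  (fun i => UpperHalfPlane.ofComplex (x.1 i), Fib.crd.symm x.2)

/-- A map of `X r` expressed in the coordinates of `ℂ^r × V`. -/
noncomputable def loc (G : X r → X r) (x : E r) : E r := toE (G (ofE x))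

/-- The derivative of a map of `X r` at `p` (in the coordinates of `ℂ^r × V`). -/
noncomputable def tmap (G : X r → X r) (p : X r) : E r →L[ℝ] E r :=
  fderiv ℝ (loc G) (toE p)

/-- The norm of the tangent vector `v` at `p`: the maximum of the hyperbolic norms
`|v_i| / Im z_i` of the components in the factors `ℍ` and of the norm of the component in `W`.
It is invariant under deck transformations and uniformly equivalent to the norm of the product
Riemannian metric. -/
noncomputable def tnorm (p : X r) (v : E r) : ℝ :=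
  max ‖(fun i => ((p.1 i).im : ℂ)⁻¹ * v.1 i : Fin r → ℂ)‖ (Fib.nrm p.2 v.2)

end Pool.Agent.ANO5.A1
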